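import Pool.Agent.Q194.PSDMat

/-!
# MP_204515_an: `G(M_m(A)) = G(A)` for every unital C*-algebra
-/

namespace Pool.Agent.Results.MP_204515_an.UnitalAmplification

open Pool.Agent.Q194.PSD

/-- **Theorem.** `G(M_m(A)) = G(A)` for every unital C*-algebra `A` and every `m ≥ 1`. -/
theorem result (A : Type*) [CStarAlgebra A] [PartialOrder A] [StarOrderedRing A] (m : ℕ)
    (hm : 1 ≤ m) (n : ℕ) (Γ : SimpleGraph (Fin n)) :
    InG (CStarMatrix (Fin m) (Fin m) A) Γ ↔ InG A Γ :=
  inG_matrix_iff hm Γ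

end Pool.Agent.Results.MP_204515_an.UnitalAmplification
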